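import Mathlib

/-!
# MP_79d924_lc: the forcing lemma

`force`: let `G` be a nonzero function on `F_2^n` with values in `{-1, 0, 1}` whose Fourier
coefficients `c a` are integer multiples of `2 ^ (-m)`, with `2 * ∑ |c a| ≤ N`.  Then there are at
most `(2 m - 1) N` equations such that `G` is `±` a character on a nonempty affine subspace given
by these equations.

Proof.  On a flat `E` with average `a` of `G` (after multiplication with a character and a sign we
start with `a ≥ 2 ^ (-m)`) one has `∑_E (G - a) G ≥ a (1 - a) |E|`, and expanding the second factor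
gives a character `χ`, not constant on `E`, with `|∑_E G χ| ≥ a (1 - a) |E| / A`, `A = ∑ |c a|`.
Restricting to a half of `E` the average grows to at least `a + a (1 - a) / A`.
-/

set_option autoImplicit false

namespace Pool.Agent.Work.MP_79d924_lc.SI

open Finset

variable {n : ℕ}

/-- the character `x ↦ (-1)^{a·x}` -/
noncomputable def chi (a x : Fin n → ZMod 2) : ℝ := (-1 : ℝ) ^ ((∑ i, a i * x i).val)

theorem zcases (z : ZMod 2) : z = 0 ∨ z = 1 := by
  revert z; decide

theorem neg_pow_val_add (s t : ZMod 2) :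
    (-1 : ℝ) ^ ((s + t).val) = (-1 : ℝ) ^ s.val * (-1 : ℝ) ^ t.val := by
  have h11 : (1 + 1 : ZMod 2) = 0 := by decide
  have v0 : (0 : ZMod 2).val = 0 := by decide
  have v1 : (1 : ZMod 2).val = 1 := by decide
  rcases zcases s with rfl | rfl <;> rcases zcases t with rfl | rfl <;> simp [h11, v0, v1]

theorem chi_add_right (a x y : Fin n → ZMod 2) : chi a (x + y) = chi a x * chi a y := by
  unfold chi
  rw [← neg_pow_val_add, ← Finset.sum_add_distrib]
  congr 2
  refine Finset.sum_congr rfl fun i _ => ?_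
  simp [mul_add]

theorem chi_comm (a x : Fin n → ZMod 2) : chi a x = chi x a := by
  unfold chi
  congr 2
  exact Finset.sum_congr rfl fun i _ => mul_comm _ _

theorem chi_add_left (a b x : Fin n → ZMod 2) : chi (a + b) x = chi a x * chi b x := by
  rw [chi_comm, chi_add_right, chi_comm x a, chi_comm x b]

theorem chi_sq (a x : Fin n → ZMod 2) : chi a x * chi a x = 1 := by
  unfold chi
  rw [← pow_add, ← two_mul, pow_mul]
  simp

theorem chi_cases (a x : Fin n → ZMod 2) : chi a x = 1 ∨ chi a x = -1 := by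
  have := chi_sq a x
  rcases mul_self_eq_one_iff.mp this with h | h
  · exact Or.inl h
  · exact Or.inr h

theorem chi_zero (a : Fin n → ZMod 2) : chi a 0 = 1 := by
  unfold chi; simp

theorem chi_zero_left (x : Fin n → ZMod 2) : chi 0 x = 1 := by
  unfold chi; simp

theorem chi_eq_iff (a x y : Fin n → ZMod 2) :
    chi a x = chi a y ↔ ∑ i, a i * x i = ∑ i, a i * y i := by
  unfold chi
  constructor
  · intro h
    have v0 : (0 : ZMod 2).val = 0 := by decide
    have v1 : (1 : ZMod 2).val = 1 := by decide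
    rcases zcases (∑ i, a i * x i) with h1 | h1 <;> rcases zcases (∑ i, a i * y i) with h2 | h2 <;>
      rw [h1, h2] at h ⊢ <;> simp [v0, v1] at h <;> norm_num at h
  · intro h; rw [h]

theorem add_self (x : Fin n → ZMod 2) : x + x = 0 := by
  ext i
  simpa using (by revert i; intro i; generalize x i = z; revert z; decide :
    x i + x i = 0)

/-- the affine subspace through `x₀` with equations `L` -/
def Fl (L : List (Fin n → ZMod 2)) (x₀ : Fin n → ZMod 2) : Finset (Fin n → ZMod 2) :=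
  univ.filter (fun x => ∀ a ∈ L, ∑ i, a i * x i = ∑ i, a i * x₀ i)

theorem mem_Fl {L : List (Fin n → ZMod 2)} {x₀ x : Fin n → ZMod 2} :
    x ∈ Fl L x₀ ↔ ∀ a ∈ L, ∑ i, a i * x i = ∑ i, a i * x₀ i := by
  unfold Fl; simp

theorem mem_Fl' {L : List (Fin n → ZMod 2)} {x₀ x : Fin n → ZMod 2} :
    x ∈ Fl L x₀ ↔ ∀ a ∈ L, chi a x = chi a x₀ := by
  rw [mem_Fl]
  exact forall₂_congr fun a _ => (chi_eq_iff a x x₀).symm

theorem self_mem (L : List (Fin n → ZMod 2)) (x₀ : Fin n → ZMod 2) : x₀ ∈ Fl L x₀ := by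
  rw [mem_Fl]; intros; rfl

theorem Fl_congr {L : List (Fin n → ZMod 2)} {x₀ x₁ : Fin n → ZMod 2} (h : x₁ ∈ Fl L x₀) :
    Fl L x₁ = Fl L x₀ := by
  ext x
  rw [mem_Fl, mem_Fl]
  rw [mem_Fl] at h
  exact forall₂_congr fun a ha => by rw [h a ha]

theorem Fl_cons (a : Fin n → ZMod 2) (L : List (Fin n → ZMod 2)) (x₀ : Fin n → ZMod 2) :
    Fl (a :: L) x₀ = (Fl L x₀).filter (fun x => chi a x = chi a x₀) := by
  ext x
  rw [mem_filter, mem_Fl', mem_Fl']
  simp [and_comm]

theorem Fl_shift {L : List (Fin n → ZMod 2)} {x₀ x₁ x : Fin n → ZMod 2} (h : x₁ ∈ Fl L x₀)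
    (hx : x ∈ Fl L x₀) : x + (x₁ + x₀) ∈ Fl L x₀ := by
  rw [mem_Fl'] at *
  intro a ha
  rw [chi_add_right, chi_add_right, hx a ha, h a ha, chi_sq, mul_one]

theorem Fl_card_pos (L : List (Fin n → ZMod 2)) (x₀ : Fin n → ZMod 2) :
    0 < ((Fl L x₀).card : ℝ) := by
  exact_mod_cast Finset.card_pos.mpr ⟨x₀, self_mem L x₀⟩

theorem sum_chi_zero {L : List (Fin n → ZMod 2)} {x₀ x₁ a : Fin n → ZMod 2} (h : x₁ ∈ Fl L x₀)
    (ha : chi a x₁ ≠ chi a x₀) : ∑ x ∈ Fl L x₀, chi a x = 0 := by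
  have h1 : chi a x₁ * chi a x₀ = -1 := by
    rcases chi_cases a x₁ with e1 | e1 <;> rcases chi_cases a x₀ with e0 | e0
    · exact absurd (e1.trans e0.symm) ha
    · rw [e1, e0]; norm_num
    · rw [e1, e0]; norm_num
    · exact absurd (e1.trans e0.symm) ha
  have h2 : ∑ x ∈ Fl L x₀, chi a x = ∑ x ∈ Fl L x₀, chi a (x + (x₁ + x₀)) := by
    refine Finset.sum_nbij' (fun x => x + (x₁ + x₀)) (fun x => x + (x₁ + x₀)) ?_ ?_ ?_ ?_ ?_
    · intro x hx; exact Fl_shift h hx
    · intro x hx; exact Fl_shift h hx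
    · intro x _; rw [add_assoc x, add_self, add_zero]
    · intro x _; rw [add_assoc x, add_self, add_zero]
    · intro x _; rw [add_assoc x, add_self, add_zero]
  have h3 : ∑ x ∈ Fl L x₀, chi a (x + (x₁ + x₀)) = - ∑ x ∈ Fl L x₀, chi a x := by
    rw [← Finset.sum_neg_distrib]
    refine Finset.sum_congr rfl fun x _ => ?_
    rw [chi_add_right, chi_add_right, h1]; ring
  linarith

/-- average of `G` on a flat -/
noncomputable def av (G : (Fin n → ZMod 2) → ℝ) (L : List (Fin n → ZMod 2)) (x₀ : Fin n → ZMod 2) :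
    ℝ := (∑ x ∈ Fl L x₀, G x) / (Fl L x₀).card

theorem av_mul (G : (Fin n → ZMod 2) → ℝ) (L : List (Fin n → ZMod 2)) (x₀ : Fin n → ZMod 2) :
    ∑ x ∈ Fl L x₀, G x = av G L x₀ * (Fl L x₀).card := by
  unfold av
  field_simp [(Fl_card_pos L x₀).ne']

/-- integrality of the averages -/
theorem av_int (G c : (Fin n → ZMod 2) → ℝ) (hG : ∀ x, G x = ∑ a, c a * chi a x) (M : ℝ)
    (hint : ∀ a, ∃ z : ℤ, M * c a = z) (L : List (Fin n → ZMod 2)) (x₀ : Fin n → ZMod 2) :
    ∃ u : ℤ, M * av G L x₀ = u := by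
  classical
  choose z hz using hint
  have hs : ∀ a : Fin n → ZMod 2, ∃ e : ℤ, ∑ x ∈ Fl L x₀, chi a x = e * (Fl L x₀).card := by
    intro a
    by_cases h : ∃ x₁ ∈ Fl L x₀, chi a x₁ ≠ chi a x₀
    · obtain ⟨x₁, h1, h2⟩ := h
      exact ⟨0, by rw [sum_chi_zero h1 h2]; simp⟩
    · push Not at h
      rcases chi_cases a x₀ with e | e
      · refine ⟨1, ?_⟩
        rw [Finset.sum_congr rfl fun x hx => (h x hx).trans e]
        simp
      · refine ⟨-1, ?_⟩
        rw [Finset.sum_congr rfl fun x hx => (h x hx).trans e]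
        simp
  choose e he using hs
  refine ⟨∑ a, z a * e a, ?_⟩
  have hpos := Fl_card_pos L x₀
  unfold av
  rw [mul_div_assoc', div_eq_iff hpos.ne']
  have : ∑ x ∈ Fl L x₀, G x = ∑ a, c a * ∑ x ∈ Fl L x₀, chi a x := by
    simp only [hG, Finset.mul_sum]
    rw [Finset.sum_comm]
  rw [this, Finset.mul_sum]
  push_cast
  rw [Finset.sum_mul]
  refine Finset.sum_congr rfl fun a _ => ?_
  rw [he, ← hz]; ring

theorem step (G c : (Fin n → ZMod 2) → ℝ) (hG : ∀ x, G x = ∑ a, c a * chi a x)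
    (hval : ∀ x, G x = -1 ∨ G x = 0 ∨ G x = 1) (A : ℝ) (hA : 0 < A) (hcA : ∑ a, |c a| ≤ A)
    (L : List (Fin n → ZMod 2)) (x₀ : Fin n → ZMod 2) (h0 : 0 < av G L x₀) (h1 : av G L x₀ < 1) :
    ∃ (b : Fin n → ZMod 2) (x₁ : Fin n → ZMod 2),
      av G L x₀ + av G L x₀ * (1 - av G L x₀) / A ≤ av G (b :: L) x₁ := by
  classical
  set E := Fl L x₀ with hE
  set a := av G L x₀ with ha
  have hcard : 0 < (E.card : ℝ) := Fl_card_pos L x₀
  have hsum : ∑ x ∈ E, G x = a * E.card := av_mul G L x₀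
  let S : (Fin n → ZMod 2) → ℝ := fun b => ∑ x ∈ E, (G x - a) * chi b x
  have hT : ∑ x ∈ E, (G x - a) * G x = ∑ b, c b * S b := by
    simp only [S, Finset.mul_sum]
    rw [Finset.sum_comm]
    refine Finset.sum_congr rfl fun x _ => ?_
    conv_lhs => rw [hG x]
    rw [← hG x, hG x, Finset.mul_sum]
    refine Finset.sum_congr rfl fun b _ => ?_
    ring
  have hT2 : a * (1 - a) * E.card ≤ ∑ x ∈ E, (G x - a) * G x := by
    have e1 : ∑ x ∈ E, (G x - a) * G x = ∑ x ∈ E, G x * G x - a * ∑ x ∈ E, G x := by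
      rw [Finset.mul_sum, ← Finset.sum_sub_distrib]
      refine Finset.sum_congr rfl fun x _ => ?_
      ring
    have e2 : ∑ x ∈ E, G x ≤ ∑ x ∈ E, G x * G x := by
      refine Finset.sum_le_sum fun x _ => ?_
      rcases hval x with h | h | h <;> rw [h] <;> norm_num
    rw [e1]
    rw [hsum] at e2 ⊢
    nlinarith
  obtain ⟨b, -, hb⟩ := Finset.exists_max_image (Finset.univ : Finset (Fin n → ZMod 2))
    (fun b => |S b|) ⟨0, Finset.mem_univ _⟩
  have hT3 : ∑ b, c b * S b ≤ A * |S b| := by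
    calc ∑ b', c b' * S b' ≤ ∑ b', |c b'| * |S b| := by
          refine Finset.sum_le_sum fun b' _ => ?_
          calc c b' * S b' ≤ |c b' * S b'| := le_abs_self _
            _ = |c b'| * |S b'| := abs_mul _ _
            _ ≤ |c b'| * |S b| := mul_le_mul_of_nonneg_left (hb b' (Finset.mem_univ _))
                (abs_nonneg _)
      _ = (∑ b', |c b'|) * |S b| := by rw [Finset.sum_mul]
      _ ≤ A * |S b| := mul_le_mul_of_nonneg_right hcA (abs_nonneg _)
  have hpos : 0 < a * (1 - a) * E.card := by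
    have : 0 < 1 - a := by linarith
    positivity
  have hSb : a * (1 - a) * E.card / A ≤ |S b| := by
    rw [div_le_iff₀ hA]
    nlinarith [hT2, hT, hT3]
  have hSb0 : 0 < |S b| := lt_of_lt_of_le (by positivity) hSb
  -- `b` is not constant on `E`
  have hnc : ∃ x₁ ∈ E, chi b x₁ ≠ chi b x₀ := by
    by_contra hcon
    push Not at hcon
    have : S b = 0 := by
      have e : S b = ∑ x ∈ E, (G x - a) * chi b x₀ :=
        Finset.sum_congr rfl fun x hx => by rw [hcon x hx]
      rw [e, ← Finset.sum_mul, Finset.sum_sub_distrib, hsum]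
      simp [mul_comm]
    rw [this] at hSb0
    simp at hSb0
  obtain ⟨x₂, hx₂, hx₂'⟩ := hnc
  have hz : ∑ x ∈ E, chi b x = 0 := sum_chi_zero hx₂ hx₂'
  have hSG : S b = ∑ x ∈ E, G x * chi b x := by
    have : S b = ∑ x ∈ E, G x * chi b x - a * ∑ x ∈ E, chi b x := by
      simp only [S]
      rw [Finset.mul_sum, ← Finset.sum_sub_distrib]
      refine Finset.sum_congr rfl fun x _ => ?_
      ring
    rw [this, hz]; ring
  -- choose the half
  obtain ⟨x₁, hx₁, hε⟩ : ∃ x₁ ∈ E, chi b x₁ * S b = |S b| := by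
    have hx0 : x₀ ∈ E := self_mem L x₀
    rcases abs_cases (S b) with ⟨h, -⟩ | ⟨h, -⟩
    · rcases chi_cases b x₀ with e | e
      · exact ⟨x₀, hx0, by rw [e, h]; ring⟩
      · refine ⟨x₂, hx₂, ?_⟩
        rcases chi_cases b x₂ with e' | e'
        · rw [e', h]; ring
        · exact absurd (e'.trans e.symm) hx₂'
    · rcases chi_cases b x₀ with e | e
      · refine ⟨x₂, hx₂, ?_⟩
        rcases chi_cases b x₂ with e' | e'
        · exact absurd (e'.trans e.symm) hx₂'
        · rw [e', h]; ring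
      · exact ⟨x₀, hx0, by rw [e, h]; ring⟩
  refine ⟨b, x₁, ?_⟩
  have hFl : Fl (b :: L) x₁ = E.filter (fun x => chi b x = chi b x₁) := by
    rw [Fl_cons, Fl_congr hx₁]
  have hhalf : ∀ H : (Fin n → ZMod 2) → ℝ, ∑ x ∈ Fl (b :: L) x₁, H x =
      (∑ x ∈ E, H x + chi b x₁ * ∑ x ∈ E, H x * chi b x) / 2 := by
    intro H
    rw [hFl, Finset.sum_filter, Finset.mul_sum, ← Finset.sum_add_distrib, Finset.sum_div]
    refine Finset.sum_congr rfl fun x _ => ?_
    rcases chi_cases b x with e | e <;> rcases chi_cases b x₁ with e' | e' <;> rw [e, e'] <;>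
      norm_num
  have hcard' : ((Fl (b :: L) x₁).card : ℝ) = E.card / 2 := by
    have := hhalf (fun _ => 1)
    simp only [Finset.sum_const, nsmul_eq_mul, mul_one, one_mul, hz, mul_zero, add_zero] at this
    exact this
  have hav : av G (b :: L) x₁ = a + |S b| / E.card := by
    unfold av
    rw [hhalf G, hcard', ← hSG, hε, hsum]
    field_simp
  rw [hav]
  have : a * (1 - a) / A ≤ |S b| / E.card := by
    rw [le_div_iff₀ hcard]
    calc a * (1 - a) / A * E.card = a * (1 - a) * E.card / A := by ring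
      _ ≤ |S b| := hSb
  linarith

/-- some flat with at most `t` equations has average at least `r` -/
def Reach (G : (Fin n → ZMod 2) → ℝ) (t : ℕ) (r : ℝ) : Prop :=
  ∃ (L : List (Fin n → ZMod 2)) (x₀ : Fin n → ZMod 2), L.length ≤ t ∧ r ≤ av G L x₀

theorem phase1 (G c : (Fin n → ZMod 2) → ℝ) (hG : ∀ x, G x = ∑ a, c a * chi a x)
    (hval : ∀ x, G x = -1 ∨ G x = 0 ∨ G x = 1) (A : ℝ) (hA : 0 < A) (hcA : ∑ a, |c a| ≤ A)
    (N : ℕ) (hN : 2 * A ≤ N) (t : ℕ) (r : ℝ) (hr : 0 < r) (h : Reach G t r) :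
    Reach G (t + N) (min (2 * r) (1 / 2)) := by
  have claim : ∀ j : ℕ, Reach G (t + j) (min (r + j * (r / (2 * A))) (1 / 2)) := by
    intro j
    induction j with
    | zero =>
      obtain ⟨L, x₀, hL, hr'⟩ := h
      exact ⟨L, x₀, by simpa using hL, (min_le_left _ _).trans (by simpa using hr')⟩
    | succ j ih =>
      obtain ⟨L, x₀, hL, hr'⟩ := ih
      by_cases hhalf : 1 / 2 ≤ av G L x₀
      · exact ⟨L, x₀, by omega, (min_le_right _ _).trans hhalf⟩
      · push Not at hhalf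
        have h1 : r + j * (r / (2 * A)) ≤ av G L x₀ := by
          rcases min_le_iff.mp hr' with h' | h'
          · exact h'
          · linarith
        have h2 : 0 ≤ j * (r / (2 * A)) := by positivity
        have h3 : r ≤ av G L x₀ := by linarith
        obtain ⟨b, x₁, hb⟩ := step G c hG hval A hA hcA L x₀ (by linarith) (by linarith)
        refine ⟨b :: L, x₁, by simp; omega, (min_le_left _ _).trans ?_⟩
        have h4 : r / (2 * A) ≤ av G L x₀ * (1 - av G L x₀) / A := by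
          rw [div_le_div_iff₀ (by positivity) hA]
          have : r * (1 / 2) ≤ av G L x₀ * (1 - av G L x₀) := by
            apply mul_le_mul h3 (by linarith) (by norm_num) (by linarith)
          nlinarith
        push_cast
        linarith
  obtain ⟨L, x₀, hL, hr'⟩ := claim N
  refine ⟨L, x₀, hL, le_trans (min_le_min ?_ le_rfl) hr'⟩
  have : r ≤ N * (r / (2 * A)) := by
    rw [mul_div_assoc', le_div_iff₀ (by positivity)]
    nlinarith
  linarith

theorem phase2 (G c : (Fin n → ZMod 2) → ℝ) (hG : ∀ x, G x = ∑ a, c a * chi a x)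
    (hval : ∀ x, G x = -1 ∨ G x = 0 ∨ G x = 1) (A : ℝ) (hA : 0 < A) (hcA : ∑ a, |c a| ≤ A)
    (N : ℕ) (hN : 2 * A ≤ N) (t : ℕ) (r : ℝ) (hr : 0 < r) (hr2 : r ≤ 1 / 2)
    (h : Reach G t (1 - r)) : Reach G (t + N) (1 - r / 2) := by
  have claim : ∀ j : ℕ, Reach G (t + j) (min (1 - r + j * (r / (4 * A))) (1 - r / 2)) := by
    intro j
    induction j with
    | zero =>
      obtain ⟨L, x₀, hL, hr'⟩ := h
      exact ⟨L, x₀, by simpa using hL, (min_le_left _ _).trans (by simpa using hr')⟩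
    | succ j ih =>
      obtain ⟨L, x₀, hL, hr'⟩ := ih
      by_cases hhalf : 1 - r / 2 ≤ av G L x₀
      · exact ⟨L, x₀, by omega, (min_le_right _ _).trans hhalf⟩
      · push Not at hhalf
        have h1 : 1 - r + j * (r / (4 * A)) ≤ av G L x₀ := by
          rcases min_le_iff.mp hr' with h' | h'
          · exact h'
          · linarith
        have h2 : 0 ≤ j * (r / (4 * A)) := by positivity
        have h3 : 1 / 2 ≤ av G L x₀ := by linarith
        obtain ⟨b, x₁, hb⟩ := step G c hG hval A hA hcA L x₀ (by linarith) (by linarith)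
        refine ⟨b :: L, x₁, by simp; omega, (min_le_left _ _).trans ?_⟩
        have h4 : r / (4 * A) ≤ av G L x₀ * (1 - av G L x₀) / A := by
          rw [div_le_div_iff₀ (by positivity) hA]
          have : 1 / 2 * (r / 2) ≤ av G L x₀ * (1 - av G L x₀) := by
            apply mul_le_mul h3 (by linarith) (by positivity) (by linarith)
          nlinarith
        push_cast
        linarith
  obtain ⟨L, x₀, hL, hr'⟩ := claim N
  refine ⟨L, x₀, hL, le_trans (le_min ?_ le_rfl) hr'⟩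
  have : r / 2 ≤ N * (r / (4 * A)) := by
    rw [mul_div_assoc', le_div_iff₀ (by positivity)]
    nlinarith
  linarith

theorem av_le_one (G : (Fin n → ZMod 2) → ℝ) (hval : ∀ x, G x = -1 ∨ G x = 0 ∨ G x = 1)
    (L : List (Fin n → ZMod 2)) (x₀ : Fin n → ZMod 2) : av G L x₀ ≤ 1 := by
  unfold av
  rw [div_le_one (Fl_card_pos L x₀)]
  calc ∑ x ∈ Fl L x₀, G x ≤ ∑ x ∈ Fl L x₀, (1 : ℝ) := by
        refine Finset.sum_le_sum fun x _ => ?_
        rcases hval x with h | h | h <;> rw [h] <;> norm_num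
    _ = _ := by simp

theorem eq_one_of_av (G : (Fin n → ZMod 2) → ℝ) (hval : ∀ x, G x = -1 ∨ G x = 0 ∨ G x = 1)
    (L : List (Fin n → ZMod 2)) (x₀ : Fin n → ZMod 2) (h : av G L x₀ = 1) :
    ∀ x ∈ Fl L x₀, G x = 1 := by
  have h1 := av_mul G L x₀
  rw [h, one_mul] at h1
  have h2 : ∑ x ∈ Fl L x₀, (1 - G x) = 0 := by
    rw [Finset.sum_sub_distrib, h1]; simp
  have h3 := (Finset.sum_eq_zero_iff_of_nonneg (fun x _ => by
    rcases hval x with h | h | h <;> rw [h] <;> norm_num)).mp h2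
  intro x hx
  have := h3 x hx
  linarith

theorem reach_one (G c : (Fin n → ZMod 2) → ℝ) (hG : ∀ x, G x = ∑ a, c a * chi a x)
    (hval : ∀ x, G x = -1 ∨ G x = 0 ∨ G x = 1) (m : ℕ)
    (hint : ∀ a, ∃ z : ℤ, (2 : ℝ) ^ m * c a = z) (A : ℝ) (hA : 0 < A) (hcA : ∑ a, |c a| ≤ A)
    (N : ℕ) (hN : 2 * A ≤ N) (h : Reach G 0 (1 / 2 ^ m)) :
    ∃ (L : List (Fin n → ZMod 2)) (x₀ : Fin n → ZMod 2), L.length ≤ (2 * m - 1) * N ∧
      ∀ x ∈ Fl L x₀, G x = 1 := by
  suffices hs : Reach G ((2 * m - 1) * N) (1 - 1 / 2 / 2 ^ m) by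
    obtain ⟨L, x₀, hL, hr⟩ := hs
    refine ⟨L, x₀, hL, eq_one_of_av G hval L x₀ ?_⟩
    obtain ⟨u, hu⟩ := av_int G c hG _ hint L x₀
    have h1 := av_le_one G hval L x₀
    have hM : (0 : ℝ) < 2 ^ m := by positivity
    have h2 : (2 : ℝ) ^ m - 1 / 2 ≤ u := by
      rw [← hu]
      have := mul_le_mul_of_nonneg_left hr hM.le
      have e : (2 : ℝ) ^ m * (1 - 1 / 2 / 2 ^ m) = 2 ^ m - 1 / 2 := by
        field_simp
      linarith
    have h3 : (2 : ℤ) ^ m ≤ u := by
      have : (2 : ℤ) ^ m - 1 < u := by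
        have : (((2 : ℤ) ^ m - 1 : ℤ) : ℝ) < (u : ℝ) := by
          push_cast; linarith
        exact_mod_cast this
      omega
    have h4 : (2 : ℝ) ^ m ≤ 2 ^ m * av G L x₀ := by
      rw [hu]; exact_mod_cast h3
    have h5 : 1 ≤ av G L x₀ := by
      have := (mul_le_mul_iff_right₀ hM (b := (1 : ℝ)) (c := av G L x₀)).mp (by simpa using h4)
      exact this
    linarith
  rcases Nat.eq_zero_or_pos m with rfl | hm
  · obtain ⟨L, x₀, hL, hr⟩ := h
    refine ⟨L, x₀, by simpa using hL, ?_⟩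
    norm_num at hr ⊢
    linarith
  · have p1 : ∀ i : ℕ, Reach G (i * N) (min (2 ^ i / 2 ^ m) (1 / 2)) := by
      intro i
      induction i with
      | zero =>
        obtain ⟨L, x₀, hL, hr⟩ := h
        exact ⟨L, x₀, by simpa using hL, (min_le_left _ _).trans (by simpa using hr)⟩
      | succ i ih =>
        have hpos : (0 : ℝ) < min (2 ^ i / 2 ^ m) (1 / 2) := by
          apply lt_min <;> positivity
        have := phase1 G c hG hval A hA hcA N hN (i * N) _ hpos ih
        obtain ⟨L, x₀, hL, hr⟩ := this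
        refine ⟨L, x₀, by rw [add_mul, one_mul]; exact hL, le_trans ?_ hr⟩
        apply le_min _ (min_le_right _ _)
        rw [mul_min_of_nonneg _ _ (by norm_num)]
        refine min_le_min ?_ (by norm_num)
        rw [pow_succ]
        apply le_of_eq
        ring
    have p1' : Reach G ((m - 1) * N) (1 - 1 / 2) := by
      obtain ⟨L, x₀, hL, hr⟩ := p1 (m - 1)
      refine ⟨L, x₀, hL, le_trans ?_ hr⟩
      apply le_min _ (by norm_num)
      obtain ⟨m', rfl⟩ : ∃ m', m = m' + 1 := ⟨m - 1, by omega⟩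
      simp only [Nat.add_sub_cancel, pow_succ]
      have : (0 : ℝ) < 2 ^ m' := by positivity
      rw [le_div_iff₀ (by positivity)]
      linarith
    have p2 : ∀ i : ℕ, Reach G ((m - 1) * N + i * N) (1 - 1 / 2 / 2 ^ i) := by
      intro i
      induction i with
      | zero => simpa using p1'
      | succ i ih =>
        have hle : (1 : ℝ) / 2 / 2 ^ i ≤ 1 / 2 := by
          apply div_le_self (by norm_num)
          exact one_le_pow₀ (by norm_num)
        have := phase2 G c hG hval A hA hcA N hN _ _ (by positivity) hle ih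
        obtain ⟨L, x₀, hL, hr⟩ := this
        refine ⟨L, x₀, by rw [add_mul, one_mul]; omega, le_trans (le_of_eq ?_) hr⟩
        rw [pow_succ]
        ring
    obtain ⟨L, x₀, hL, hr⟩ := p2 m
    refine ⟨L, x₀, le_trans hL (le_of_eq ?_), hr⟩
    rw [← add_mul]
    congr 1
    omega

theorem sum_chi_univ {a : Fin n → ZMod 2} (ha : a ≠ 0) : ∑ x, chi a x = 0 := by
  classical
  obtain ⟨i, hi⟩ := Function.ne_iff.mp ha
  have h1 : chi a (Pi.single i 1) ≠ chi a 0 := by
    rw [Ne, chi_eq_iff]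
    have : ∑ j, a j * (Pi.single i 1 : Fin n → ZMod 2) j = a i := by
      simp [Pi.single_apply]
    rw [this]
    simpa using hi
  have hFl : Fl ([] : List (Fin n → ZMod 2)) 0 = univ := by
    ext x; simp [mem_Fl]
  have := sum_chi_zero (L := []) (x₀ := 0) (x₁ := Pi.single i 1) (a := a)
    (by rw [hFl]; exact mem_univ _) h1
  rwa [hFl] at this

theorem force (G c : (Fin n → ZMod 2) → ℝ) (hG : ∀ x, G x = ∑ a, c a * chi a x)
    (hval : ∀ x, G x = -1 ∨ G x = 0 ∨ G x = 1) (hne : ∃ x, G x ≠ 0) (m : ℕ)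
    (hint : ∀ a, ∃ z : ℤ, (2 : ℝ) ^ m * c a = z)
    (N : ℕ) (hN : 2 * ∑ a, |c a| ≤ N) :
    ∃ (L : List (Fin n → ZMod 2)) (x₀ a₀ : Fin n → ZMod 2) (s : ℝ), L.length ≤ (2 * m - 1) * N ∧
      (s = 1 ∨ s = -1) ∧ ∀ x ∈ Fl L x₀, G x = s * chi a₀ x := by
  classical
  have hM : (0 : ℝ) < 2 ^ m := by positivity
  obtain ⟨a₀, ha₀⟩ : ∃ a₀, c a₀ ≠ 0 := by
    by_contra hcon
    push Not at hcon
    obtain ⟨x, hx⟩ := hne
    apply hx
    rw [hG]
    simp [hcon]
  have hca : 1 / 2 ^ m ≤ |c a₀| := by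
    obtain ⟨z, hz⟩ := hint a₀
    have hz0 : z ≠ 0 := by
      rintro rfl
      rw [Int.cast_zero] at hz
      rcases mul_eq_zero.mp hz with h | h
      · exact hM.ne' h
      · exact ha₀ h
    have h1 : (1 : ℝ) ≤ |(z : ℝ)| := by exact_mod_cast Int.one_le_abs hz0
    rw [← hz, abs_mul, abs_of_pos hM] at h1
    rw [div_le_iff₀ hM]
    linarith
  obtain ⟨s, hs, hsc⟩ : ∃ s : ℝ, (s = 1 ∨ s = -1) ∧ s * c a₀ = |c a₀| := by
    rcases abs_cases (c a₀) with ⟨h, -⟩ | ⟨h, -⟩
    · exact ⟨1, Or.inl rfl, by rw [h]; ring⟩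
    · exact ⟨-1, Or.inr rfl, by rw [h]; ring⟩
  have hss : s * s = 1 := by rcases hs with rfl | rfl <;> norm_num
  have habs_s : |s| = 1 := by rcases hs with rfl | rfl <;> norm_num
  let G' : (Fin n → ZMod 2) → ℝ := fun x => s * (G x * chi a₀ x)
  let c' : (Fin n → ZMod 2) → ℝ := fun a => s * c (a + a₀)
  have hequiv : ∀ H : (Fin n → ZMod 2) → ℝ, ∑ a, H (a + a₀) = ∑ a, H a := by
    intro H
    exact Fintype.sum_equiv (Equiv.addRight a₀) _ _ (fun a => rfl)
  have hG' : ∀ x, G' x = ∑ a, c' a * chi a x := by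
    intro x
    have e : ∑ a, c' a * chi a x = ∑ a, (fun b => s * c b * chi (b + a₀) x) (a + a₀) := by
      refine Finset.sum_congr rfl fun a _ => ?_
      simp only [c']
      rw [add_assoc, add_self, add_zero]
    rw [e, hequiv (fun b => s * c b * chi (b + a₀) x)]
    simp only [G']
    rw [hG x, Finset.sum_mul, Finset.mul_sum]
    refine Finset.sum_congr rfl fun a _ => ?_
    rw [chi_add_left]; ring
  have hval' : ∀ x, G' x = -1 ∨ G' x = 0 ∨ G' x = 1 := by
    intro x
    simp only [G']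
    rcases hval x with h | h | h <;> rcases chi_cases a₀ x with e | e <;>
      rcases hs with rfl | rfl <;> rw [h, e] <;> norm_num
  have hint' : ∀ a, ∃ z : ℤ, (2 : ℝ) ^ m * c' a = z := by
    intro a
    obtain ⟨z, hz⟩ := hint (a + a₀)
    rcases hs with h | h
    · exact ⟨z, by simp only [c']; rw [h, one_mul, hz]⟩
    · exact ⟨-z, by simp only [c']; rw [h]; push_cast; rw [← hz]; ring⟩
  have hsum' : ∑ a, |c' a| = ∑ a, |c a| := by
    have : ∑ a, |c' a| = ∑ a, (fun b => |c b|) (a + a₀) := by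
      refine Finset.sum_congr rfl fun a _ => ?_
      simp only [c']
      rw [abs_mul, habs_s, one_mul]
    rw [this, hequiv (fun b => |c b|)]
  have hApos : 0 < ∑ a, |c a| := by
    have h1 : |c a₀| ≤ ∑ a, |c a| :=
      Finset.single_le_sum (f := fun a => |c a|) (fun a _ => abs_nonneg _) (Finset.mem_univ a₀)
    have h2 : 0 < |c a₀| := abs_pos.mpr ha₀
    linarith
  have hav : av G' [] 0 = |c a₀| := by
    have hFl : Fl ([] : List (Fin n → ZMod 2)) 0 = univ := by
      ext x; simp [mem_Fl]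
    unfold av
    rw [hFl]
    have e : ∑ x, G' x = |c a₀| * (univ : Finset (Fin n → ZMod 2)).card := by
      simp only [hG']
      rw [Finset.sum_comm, Finset.sum_eq_single (0 : Fin n → ZMod 2)]
      · simp only [chi_zero_left, mul_one, Finset.sum_const, nsmul_eq_mul, c', zero_add]
        rw [hsc]; ring
      · intro b _ hb
        rw [← Finset.mul_sum, sum_chi_univ hb, mul_zero]
      · intro h; exact absurd (Finset.mem_univ _) h
    rw [e]
    have : (0 : ℝ) < (univ : Finset (Fin n → ZMod 2)).card := by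
      exact_mod_cast Finset.card_pos.mpr ⟨0, Finset.mem_univ _⟩
    field_simp
  obtain ⟨L, x₀, hL, hone⟩ := reach_one G' c' hG' hval' m hint' (∑ a, |c a|) hApos
    hsum'.le N hN ⟨[], 0, le_rfl, by rw [hav]; exact hca⟩
  refine ⟨L, x₀, a₀, s, hL, hs, fun x hx => ?_⟩
  have h1 : s * (G x * chi a₀ x) = 1 := hone x hx
  have h2 := chi_sq a₀ x
  calc G x = (s * s) * (chi a₀ x * chi a₀ x) * G x := by rw [hss, h2]; ring
    _ = s * chi a₀ x * (s * (G x * chi a₀ x)) := by ring
    _ = s * chi a₀ x := by rw [h1, mul_one]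

end Pool.Agent.Work.MP_79d924_lc.SI
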