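import Pool.Agent.Work.MP_79d924_lc.SI.Main

/-!
# MP_79d924_lc: directions of small influence and total influence in a basis
-/

set_option autoImplicit false

namespace Pool.Agent.Work.MP_79d924_lc.SI

open Finset

variable {n : ℕ}

/-- a single direction: `f + l` is constant or balanced on the cosets of `{0, v}` -/
theorem kill_dir' (m : ℕ) (f : (Fin n → ZMod 2) → Bool) (hf : Granular (m + 1) f)
    (v : Fin n → ZMod 2) (hv : ∃ x, f x ≠ f (x + v)) :
    2 ≤ (2 : ℝ) ^ (m + 1) * (Nat.card {x // f x ≠ f (x + v)} : ℝ) / 2 ^ n ∧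
    KillLE f (2 * (m + 1) *
      ⌈(2 : ℝ) ^ (m + 1) * (Nat.card {x // f x ≠ f (x + v)} : ℝ) / 2 ^ n⌉₊) := by
  classical
  have hv0 : v ≠ 0 := by
    rintro rfl
    obtain ⟨x, hx⟩ := hv
    simp at hx
  obtain ⟨i, hi⟩ := Function.ne_iff.mp hv0
  have hi1 : v i = 1 := by
    rcases zcases (v i) with h | h
    · exact absurd h hi
    · exact h
  let l : Fin n → ZMod 2 := Pi.single i 1
  have hlv : ∑ j, l j * v j = 1 := by
    simp [l, Pi.single_apply, hi1]
  let W : Submodule (ZMod 2) (Fin n → ZMod 2) := Submodule.span (ZMod 2) {v}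
  have hmem : ∀ w : Fin n → ZMod 2, w ∈ W ↔ w = 0 ∨ w = v := by
    intro w
    rw [Submodule.mem_span_singleton]
    constructor
    · rintro ⟨a, rfl⟩
      rcases zcases a with rfl | rfl
      · left; simp
      · right; simp
    · rintro (rfl | rfl)
      · exact ⟨0, by simp⟩
      · exact ⟨1, by simp⟩
  have htw : ∀ x, tw f l (x + v) = tw f l x ↔ f x ≠ f (x + v) := by
    intro x
    unfold tw
    have e : ∑ j, l j * (x + v) j = ∑ j, l j * x j + 1 := by
      rw [← hlv, ← Finset.sum_add_distrib]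
      refine Finset.sum_congr rfl fun j _ => ?_
      simp [mul_add]
    rw [e]
    generalize ∑ j, l j * x j = z
    cases f x <;> cases f (x + v) <;> revert z <;> simp <;> decide
  have hconst : ∀ x, ConstAt f l W x ↔ f x ≠ f (x + v) := by
    intro x
    rw [← htw]
    constructor
    · intro h
      exact h v ((hmem v).mpr (Or.inr rfl))
    · intro h w hw
      rcases (hmem w).mp hw with rfl | rfl
      · rw [add_zero]
      · exact h
  have hbal : ∀ x, ¬ ConstAt f l W x → BalAt f l W x := by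
    intro x hx
    rw [hconst, ← htw] at hx
    unfold BalAt
    -- swap the two elements
    have h2 : ∀ s t : ZMod 2, s ≠ t → (s = 0 ↔ t = 1) := by decide
    refine Nat.card_congr
      { toFun := fun w => ⟨w.1 + ⟨v, (hmem v).mpr (Or.inr rfl)⟩, ?_⟩
        invFun := fun w => ⟨w.1 + ⟨v, (hmem v).mpr (Or.inr rfl)⟩, ?_⟩
        left_inv := ?_
        right_inv := ?_ }
    · have hw := w.2
      rcases (hmem _).mp w.1.2 with h | h
      · rw [h, add_zero] at hw
        show tw f l (x + (((w.1 : W) : Fin n → ZMod 2) + v)) = 1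
        rw [h, zero_add]
        exact (h2 _ _ (Ne.symm hx)).mp hw
      · rw [h] at hw
        show tw f l (x + (((w.1 : W) : Fin n → ZMod 2) + v)) = 1
        rw [h, add_self, add_zero]
        exact (h2 _ _ hx).mp hw
    · have hw := w.2
      rcases (hmem _).mp w.1.2 with h | h
      · rw [h, add_zero] at hw
        show tw f l (x + (((w.1 : W) : Fin n → ZMod 2) + v)) = 0
        rw [h, zero_add]
        exact (h2 _ _ hx).mpr hw
      · rw [h] at hw
        show tw f l (x + (((w.1 : W) : Fin n → ZMod 2) + v)) = 0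
        rw [h, add_self, add_zero]
        exact (h2 _ _ (Ne.symm hx)).mpr hw
    · intro w
      apply Subtype.ext; apply Subtype.ext
      show ((w.1 : W) : Fin n → ZMod 2) + v + v = ((w.1 : W) : Fin n → ZMod 2)
      rw [add_assoc, add_self, add_zero]
    · intro w
      apply Subtype.ext; apply Subtype.ext
      show ((w.1 : W) : Fin n → ZMod 2) + v + v = ((w.1 : W) : Fin n → ZMod 2)
      rw [add_assoc, add_self, add_zero]
  have hcard : Nat.card {x // ConstAt f l W x} = Nat.card {x // f x ≠ f (x + v)} :=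
    Nat.card_congr (Equiv.subtypeEquivRight hconst)
  have main := kill_of_cosets m f W l hf
    (fun x => (em (ConstAt f l W x)).imp id (hbal x))
    (by obtain ⟨x, hx⟩ := hv; exact ⟨x, (hconst x).mpr hx⟩)
  rw [hcard] at main
  exact main

theorem kill_dim (f : (Fin n → ZMod 2) → Bool)
    (b : Module.Basis (Fin n) (ZMod 2) (Fin n → ZMod 2)) (J : Finset (Fin n))
    (hJ : ∀ i, i ∉ J → ∀ x, f x = f (x + b i)) : KillLE f J.card := by
  classical
  let r : Fin n → Fin n → ZMod 2 := fun j i => b.repr (Pi.single i 1) j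
  have hr : ∀ (j : Fin n) (x : Fin n → ZMod 2), ∑ i, r j i * x i = b.repr x j := by
    intro j x
    have h1 : x = ∑ i, x i • (Pi.single i (1 : ZMod 2) : Fin n → ZMod 2) := by
      ext l
      simp [Pi.single_apply]
    conv_rhs => rw [h1]
    rw [map_sum, Finsupp.finsetSum_apply]
    refine Finset.sum_congr rfl fun i _ => ?_
    rw [map_smul, Finsupp.smul_apply, smul_eq_mul, mul_comm]
  have hinv : ∀ (s : Finset (Fin n)) (t : Fin n → ZMod 2) (x : Fin n → ZMod 2),
      (∀ i ∈ s, i ∉ J) → f (x + ∑ i ∈ s, t i • b i) = f x := by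
    intro s
    induction s using Finset.induction_on with
    | empty => intro t x _; simp
    | insert i s hi ih =>
      intro t x hs
      rw [Finset.sum_insert hi]
      have h1 := ih t (x + t i • b i) (fun j hj => hs j (Finset.mem_insert_of_mem hj))
      rw [add_assoc] at h1
      rw [h1]
      rcases zcases (t i) with h | h
      · rw [h]; simp
      · rw [h, one_smul]
        exact (hJ i (hs i (Finset.mem_insert_self _ _)) x).symm
  refine kill_of_list f (J.toList.map r) 0 ?_ J.card (by simp)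
  intro x hx
  rw [mem_Fl] at hx
  have hx' : ∀ j ∈ J, b.repr x j = 0 := by
    intro j hj
    have := hx (r j) (List.mem_map.mpr ⟨j, Finset.mem_toList.mpr hj, rfl⟩)
    rw [hr, hr] at this
    rw [this]; simp
  have h1 : x = 0 + ∑ i ∈ Finset.univ.filter (fun i => i ∉ J), b.repr x i • b i := by
    rw [zero_add]
    conv_lhs => rw [← b.sum_repr x]
    rw [Finset.sum_filter]
    refine Finset.sum_congr rfl fun i _ => ?_
    by_cases h : i ∈ J
    · rw [if_neg (by simpa using h), hx' i h, zero_smul]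
    · rw [if_pos h]
  rw [h1]
  exact hinv _ _ _ (fun i hi => (Finset.mem_filter.mp hi).2)

theorem kill_basis' (m : ℕ) (f : (Fin n → ZMod 2) → Bool) (hf : Granular (m + 1) f)
    (b : Module.Basis (Fin n) (ZMod 2) (Fin n → ZMod 2)) :
    ∃ d : ℕ, KillLE f d ∧ (d : ℝ) ^ 2 ≤ 3 * ((m + 1 : ℕ) : ℝ) * (2 ^ (m + 1) *
      ∑ i, (Nat.card {x // f x ≠ f (x + b i)} : ℝ) / 2 ^ n) := by
  classical
  let D : Fin n → ℝ := fun i => (Nat.card {x // f x ≠ f (x + b i)} : ℝ) / 2 ^ n
  have hD0 : ∀ i, 0 ≤ D i := fun i => by positivity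
  let J : Finset (Fin n) := Finset.univ.filter (fun i => ∃ x, f x ≠ f (x + b i))
  set P : ℝ := 2 ^ (m + 1) * ∑ i, D i with hP
  have hP0 : 0 ≤ P := by
    have := Finset.sum_nonneg (fun i (_ : i ∈ Finset.univ) => hD0 i)
    positivity
  have hkJ : KillLE f J.card := by
    apply kill_dim f b J
    intro i hi x
    by_contra hx
    exact hi (Finset.mem_filter.mpr ⟨Finset.mem_univ _, x, hx⟩)
  have hm : (0 : ℝ) < ((m + 1 : ℕ) : ℝ) := by positivity
  by_cases hcase : (J.card : ℝ) ^ 2 ≤ 3 * ((m + 1 : ℕ) : ℝ) * P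
  · exact ⟨J.card, hkJ, hcase⟩
  · push Not at hcase
    have hJpos : 0 < (J.card : ℝ) := by
      by_contra h
      have h0 : (J.card : ℝ) = 0 := le_antisymm (not_lt.mp h) (by positivity)
      rw [h0] at hcase
      have : 0 ≤ 3 * ((m + 1 : ℕ) : ℝ) * P := by positivity
      have e : (0 : ℝ) ^ 2 = 0 := by norm_num
      rw [e] at hcase
      exact absurd hcase (not_lt.mpr this)
    have hJne : J.Nonempty := Finset.card_pos.mp (by exact_mod_cast hJpos)
    obtain ⟨i, hiJ, hmin⟩ := Finset.exists_min_image J D hJne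
    have hmul : J.card * D i ≤ ∑ j, D j := by
      calc J.card * D i = ∑ _j ∈ J, D i := by simp
        _ ≤ ∑ j ∈ J, D j := Finset.sum_le_sum fun j hj => hmin j hj
        _ ≤ ∑ j, D j := Finset.sum_le_sum_of_subset_of_nonneg (Finset.subset_univ _)
            (fun j _ _ => hD0 j)
    obtain ⟨h2, hk⟩ := kill_dir' m f hf (b i) (Finset.mem_filter.mp hiJ).2
    refine ⟨_, hk, ?_⟩
    set y : ℝ := (2 : ℝ) ^ (m + 1) * (Nat.card {x // f x ≠ f (x + b i)} : ℝ) / 2 ^ n with hy
    have hyD : y = 2 ^ (m + 1) * D i := by rw [hy]; simp only [D]; ring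
    have hceil : (⌈y⌉₊ : ℝ) ≤ 3 / 2 * y := by
      have := (Nat.ceil_lt_add_one (a := y) (by linarith)).le
      linarith
    have hyP : J.card * y ≤ P := by
      rw [hyD, hP]
      calc (J.card : ℝ) * (2 ^ (m + 1) * D i) = 2 ^ (m + 1) * (J.card * D i) := by ring
        _ ≤ 2 ^ (m + 1) * ∑ j, D j := mul_le_mul_of_nonneg_left hmul (by positivity)
    push_cast at *
    have hd : (2 * ((m : ℝ) + 1) * (⌈y⌉₊ : ℝ)) ≤ 3 * ((m : ℝ) + 1) * y := by nlinarith
    have hd0 : 0 ≤ (2 * ((m : ℝ) + 1) * (⌈y⌉₊ : ℝ)) := by positivity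
    have hypos : 0 < y := by linarith
    -- `(3 k y)^2 ≤ 3 k P` since `3 k P < c^2` and `c y ≤ P`
    have h3 : 3 * ((m : ℝ) + 1) * y * J.card ≤ 3 * ((m : ℝ) + 1) * P := by nlinarith
    have h4 : 3 * ((m : ℝ) + 1) * y ≤ J.card := by
      by_contra h
      push Not at h
      have : (J.card : ℝ) ^ 2 ≤ 3 * ((m : ℝ) + 1) * y * J.card := by
        rw [sq]; exact mul_le_mul_of_nonneg_right h.le hJpos.le
      linarith
    calc (2 * ((m : ℝ) + 1) * (⌈y⌉₊ : ℝ)) ^ 2 ≤ (3 * ((m : ℝ) + 1) * y) ^ 2 := by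
          exact pow_le_pow_left₀ hd0 hd 2
      _ = (3 * ((m : ℝ) + 1) * y) * (3 * ((m : ℝ) + 1) * y) := by ring
      _ ≤ (3 * ((m : ℝ) + 1) * y) * J.card :=
          mul_le_mul_of_nonneg_left h4 (by positivity)
      _ ≤ 3 * ((m : ℝ) + 1) * P := h3

end Pool.Agent.Work.MP_79d924_lc.SI
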