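import Pool.Agent.Work.MP_79d924_lc.SI.Core

/-!
# MP_79d924_lc: small influences and the kill number

Definitions (granularity, kill number, constant or balanced cosets) and the main theorem
`kill_of_cosets`.
-/

set_option autoImplicit false

namespace Pool.Agent.Work.MP_79d924_lc.SI

open Finset

variable {n : ℕ}

/-- `f` is `k`-granular: all Fourier coefficients are integer multiples of `2 ^ (-k)`. -/
def Granular (k : ℕ) (f : (Fin n → ZMod 2) → Bool) : Prop :=
  ∀ a : Fin n → ZMod 2, ∃ m : ℤ,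
    (2 : ℝ) ^ k * (∑ x : Fin n → ZMod 2,
      (if f x then (1 : ℝ) else 0) * (-1 : ℝ) ^ ((∑ i, a i * x i).val)) = (m : ℝ) * (2 : ℝ) ^ n

/-- `f` is constant on a nonempty affine subspace given by `d` equations: `K(f) ≤ d`. -/
def KillLE (f : (Fin n → ZMod 2) → Bool) (d : ℕ) : Prop :=
  ∃ (A : Fin d → Fin n → ZMod 2) (b : Fin d → ZMod 2),
    (∃ x : Fin n → ZMod 2, ∀ j, ∑ i, A j i * x i = b j) ∧
    ∀ x y : Fin n → ZMod 2,
      (∀ j, ∑ i, A j i * x i = b j) → (∀ j, ∑ i, A j i * y i = b j) → f x = f y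

/-- the function `f(x) + l·x` over the field with two elements -/
def tw (f : (Fin n → ZMod 2) → Bool) (l x : Fin n → ZMod 2) : ZMod 2 :=
  (if f x then 1 else 0) + ∑ i, l i * x i

/-- `f + l` is constant on the coset `x + W` -/
def ConstAt (f : (Fin n → ZMod 2) → Bool) (l : Fin n → ZMod 2)
    (W : Submodule (ZMod 2) (Fin n → ZMod 2)) (x : Fin n → ZMod 2) : Prop :=
  ∀ w ∈ W, tw f l (x + w) = tw f l x

/-- `f + l` is balanced on the coset `x + W` -/
def BalAt (f : (Fin n → ZMod 2) → Bool) (l : Fin n → ZMod 2)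
    (W : Submodule (ZMod 2) (Fin n → ZMod 2)) (x : Fin n → ZMod 2) : Prop :=
  Nat.card {w : W // tw f l (x + w) = 0} = Nat.card {w : W // tw f l (x + w) = 1}

theorem kill_of_list (f : (Fin n → ZMod 2) → Bool) (L : List (Fin n → ZMod 2))
    (x₀ : Fin n → ZMod 2) (h : ∀ x ∈ Fl L x₀, f x = f x₀) (d : ℕ) (hd : L.length ≤ d) :
    KillLE f d := by
  refine ⟨fun j => L.getD j 0, fun j => ∑ i, L.getD j 0 i * x₀ i, ⟨x₀, fun j => rfl⟩, ?_⟩
  have key : ∀ x : Fin n → ZMod 2,
      (∀ j : Fin d, ∑ i, L.getD j 0 i * x i = ∑ i, L.getD j 0 i * x₀ i) → x ∈ Fl L x₀ := by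
    intro x hx
    rw [mem_Fl]
    intro a ha
    obtain ⟨j, hj, rfl⟩ := List.getElem_of_mem ha
    have := hx ⟨j, by omega⟩
    simp only [List.getD_eq_getElem _ _ hj] at this
    exact this
  intro x y hx hy
  rw [h x (key x hx), h y (key y hy)]

/-- the sign `(-1)^f` -/
def sg (f : (Fin n → ZMod 2) → Bool) (x : Fin n → ZMod 2) : ℝ := if f x then -1 else 1

theorem sg_sq (f : (Fin n → ZMod 2) → Bool) (x : Fin n → ZMod 2) : sg f x * sg f x = 1 := by
  unfold sg; split_ifs <;> norm_num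

theorem sg_cases (f : (Fin n → ZMod 2) → Bool) (x : Fin n → ZMod 2) :
    sg f x = 1 ∨ sg f x = -1 := by
  unfold sg; split_ifs
  · exact Or.inr rfl
  · exact Or.inl rfl

theorem sg_chi (f : (Fin n → ZMod 2) → Bool) (l x : Fin n → ZMod 2) :
    sg f x * chi l x = (-1 : ℝ) ^ (tw f l x).val := by
  unfold tw
  rw [neg_pow_val_add]
  unfold sg chi
  congr 1
  split_ifs
  · have v1 : (1 : ZMod 2).val = 1 := by decide
    rw [v1]; norm_num
  · simp

theorem card_pi : (Finset.univ : Finset (Fin n → ZMod 2)).card = 2 ^ n := by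
  simp [ZMod.card]

theorem ortho (x y : Fin n → ZMod 2) :
    ∑ a : Fin n → ZMod 2, chi a x * chi a y = if x = y then (2 : ℝ) ^ n else 0 := by
  have h1 : ∀ a : Fin n → ZMod 2, chi a x * chi a y = chi (x + y) a := by
    intro a; rw [← chi_add_right, chi_comm]
  simp only [h1]
  split_ifs with h
  · rw [h, add_self]
    simp only [chi_zero_left, Finset.sum_const, card_pi, nsmul_eq_mul, mul_one]
    push_cast; rfl
  · apply sum_chi_univ
    intro h'
    apply h
    have : x + y + y = 0 + y := by rw [h']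
    rwa [add_assoc, add_self, add_zero, zero_add] at this

/-- Fourier coefficient -/
noncomputable def fc (G : (Fin n → ZMod 2) → ℝ) (a : Fin n → ZMod 2) : ℝ :=
  (∑ x, G x * chi a x) / 2 ^ n

theorem inv (G : (Fin n → ZMod 2) → ℝ) (x : Fin n → ZMod 2) :
    G x = ∑ a, fc G a * chi a x := by
  have : ∑ a, fc G a * chi a x = (∑ y, G y * ∑ a, chi a y * chi a x) / (2 : ℝ) ^ n := by
    simp only [fc, div_mul_eq_mul_div, ← Finset.sum_div, Finset.sum_mul, Finset.mul_sum]
    rw [Finset.sum_comm]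
    congr 1
    refine Finset.sum_congr rfl fun y _ => Finset.sum_congr rfl fun a _ => ?_
    ring
  rw [this]
  simp only [ortho]
  simp

theorem parseval (G : (Fin n → ZMod 2) → ℝ) :
    ∑ a, fc G a ^ 2 = (∑ x, G x ^ 2) / 2 ^ n := by
  have h1 : ∑ a, fc G a ^ 2 = (∑ x, G x * ∑ a, fc G a * chi a x) / (2 : ℝ) ^ n := by
    have : ∀ a, fc G a ^ 2 = (∑ x, G x * (fc G a * chi a x)) / (2 : ℝ) ^ n := by
      intro a
      rw [sq]
      conv_lhs => enter [2]; simp only [fc]
      rw [mul_div_assoc', Finset.mul_sum]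
      congr 1
      refine Finset.sum_congr rfl fun y _ => ?_
      ring
    simp only [this, ← Finset.sum_div]
    rw [Finset.sum_comm]
    simp only [Finset.mul_sum]
  rw [h1]
  simp only [← inv]
  congr 1
  exact Finset.sum_congr rfl fun x _ => (sq (G x)).symm

/-- for `k = m + 1` the Fourier coefficients of `(-1)^f` are integer multiples of `2 ^ (-m)` -/
theorem int_sg (f : (Fin n → ZMod 2) → Bool) (m : ℕ) (h : Granular (m + 1) f)
    (a : Fin n → ZMod 2) : ∃ z : ℤ, (2 : ℝ) ^ m * fc (sg f) a = z := by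
  obtain ⟨u, hu⟩ := h a
  have h2n : (2 : ℝ) ^ n ≠ 0 := by positivity
  have e1 : ∑ x, sg f x * chi a x = (∑ x, chi a x) -
      2 * ∑ x : Fin n → ZMod 2, (if f x then (1 : ℝ) else 0) * chi a x := by
    rw [Finset.mul_sum, ← Finset.sum_sub_distrib]
    refine Finset.sum_congr rfl fun x _ => ?_
    unfold sg
    split_ifs <;> ring
  have e2 : ∑ x, chi a x = if a = 0 then (2 : ℝ) ^ n else 0 := by
    split_ifs with ha
    · rw [ha]
      simp only [chi_zero_left, Finset.sum_const, card_pi, nsmul_eq_mul, mul_one]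
      push_cast; rfl
    · exact sum_chi_univ ha
  have hu' : (2 : ℝ) ^ (m + 1) * ∑ x : Fin n → ZMod 2, (if f x then (1 : ℝ) else 0) * chi a x =
      (u : ℝ) * (2 : ℝ) ^ n := hu
  refine ⟨(if a = 0 then 2 ^ m else 0) - u, ?_⟩
  unfold fc
  rw [e1, e2, mul_div_assoc', div_eq_iff h2n, mul_sub]
  have e3 : (2 : ℝ) ^ m * (2 * ∑ x : Fin n → ZMod 2, (if f x then (1 : ℝ) else 0) * chi a x) =
      (u : ℝ) * 2 ^ n := by
    rw [← hu', pow_succ]; ring
  rw [e3]
  split_ifs
  · push_cast; ring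
  · push_cast; ring

/-- the average of `(-1)^(f + l)` over the coset `x + W` -/
noncomputable def GW (f : (Fin n → ZMod 2) → Bool) (l : Fin n → ZMod 2)
    (W : Submodule (ZMod 2) (Fin n → ZMod 2)) (x : Fin n → ZMod 2) : ℝ := by
  classical
  exact (∑ w : W, sg f (x + w) * chi l (x + w)) / Fintype.card W

theorem GW_const (f : (Fin n → ZMod 2) → Bool) (l : Fin n → ZMod 2)
    (W : Submodule (ZMod 2) (Fin n → ZMod 2)) (x : Fin n → ZMod 2) (h : ConstAt f l W x) :
    GW f l W x = sg f x * chi l x := by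
  classical
  unfold GW
  have e : ∀ w : W, sg f (x + w) * chi l (x + w) = sg f x * chi l x := by
    intro w
    rw [sg_chi, sg_chi, h w w.2]
  rw [Finset.sum_congr rfl fun w _ => e w]
  have : (Fintype.card W : ℝ) ≠ 0 := by
    exact_mod_cast Fintype.card_ne_zero
  simp only [Finset.sum_const, Finset.card_univ, nsmul_eq_mul]
  field_simp

theorem GW_bal (f : (Fin n → ZMod 2) → Bool) (l : Fin n → ZMod 2)
    (W : Submodule (ZMod 2) (Fin n → ZMod 2)) (x : Fin n → ZMod 2) (h : BalAt f l W x) :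
    GW f l W x = 0 := by
  classical
  unfold GW
  have e : ∀ w : W, sg f (x + w) * chi l (x + w) =
      (if tw f l (x + w) = 0 then (1 : ℝ) else 0) - (if tw f l (x + w) = 1 then (1 : ℝ) else 0) := by
    intro w
    rw [sg_chi]
    have v1 : (1 : ZMod 2).val = 1 := by decide
    rcases zcases (tw f l (x + w)) with h' | h' <;> rw [h'] <;> simp [v1]
  rw [Finset.sum_congr rfl fun w _ => e w, Finset.sum_sub_distrib]
  unfold BalAt at h
  rw [Nat.card_eq_fintype_card, Nat.card_eq_fintype_card, Fintype.card_subtype,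
    Fintype.card_subtype] at h
  simp only [Finset.sum_boole]
  rw [h]
  simp

theorem sum_chi_W (W : Submodule (ZMod 2) (Fin n → ZMod 2)) [Fintype W] (a : Fin n → ZMod 2) :
    ∑ w : W, chi a (w : Fin n → ZMod 2) = 0 ∨
      ∑ w : W, chi a (w : Fin n → ZMod 2) = Fintype.card W := by
  by_cases h : ∀ w : W, chi a (w : Fin n → ZMod 2) = 1
  · right
    rw [Finset.sum_congr rfl fun w _ => h w]
    simp
  · left
    push Not at h
    obtain ⟨w₀, hw₀⟩ := h
    have hw₀' : chi a (w₀ : Fin n → ZMod 2) = -1 := by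
      rcases chi_cases a (w₀ : Fin n → ZMod 2) with e | e
      · exact absurd e hw₀
      · exact e
    have h1 : ∑ w : W, chi a (w : Fin n → ZMod 2) = ∑ w : W, chi a ((w + w₀ : W) : Fin n → ZMod 2) :=
      (Fintype.sum_equiv (Equiv.addRight w₀) _ _ (fun w => rfl)).symm
    have h2 : ∑ w : W, chi a ((w + w₀ : W) : Fin n → ZMod 2) =
        - ∑ w : W, chi a (w : Fin n → ZMod 2) := by
      rw [← Finset.sum_neg_distrib]
      refine Finset.sum_congr rfl fun w _ => ?_
      rw [Submodule.coe_add, chi_add_right, hw₀']; ring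
    linarith

theorem GW_fc (f : (Fin n → ZMod 2) → Bool) (l : Fin n → ZMod 2)
    (W : Submodule (ZMod 2) (Fin n → ZMod 2)) (a : Fin n → ZMod 2) :
    fc (GW f l W) a = 0 ∨ fc (GW f l W) a = fc (sg f) (l + a) := by
  classical
  have hW : (Fintype.card W : ℝ) ≠ 0 := by
    exact_mod_cast Fintype.card_ne_zero
  have key : ∑ x, GW f l W x * chi a x =
      (∑ y, sg f y * chi (l + a) y) * (∑ w : W, chi a (w : Fin n → ZMod 2)) / Fintype.card W := by
    have e1 : ∀ w : W, ∑ x : Fin n → ZMod 2, sg f (x + w) * chi l (x + w) * chi a x =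
        (∑ y, sg f y * chi (l + a) y) * chi a (w : Fin n → ZMod 2) := by
      intro w
      rw [Finset.sum_mul]
      refine Fintype.sum_equiv (Equiv.addRight (w : Fin n → ZMod 2)) _ _ (fun x => ?_)
      show sg f (x + w) * chi l (x + w) * chi a x =
        sg f (x + w) * chi (l + a) (x + w) * chi a w
      rw [chi_add_left, chi_add_right a x w]
      have := chi_sq a (w : Fin n → ZMod 2)
      linear_combination (- sg f (x + w) * chi l (x + w) * chi a x) * this
    have e2 : ∑ x : Fin n → ZMod 2, (∑ w : W, sg f (x + w) * chi l (x + w)) * chi a x =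
        ∑ w : W, ∑ x : Fin n → ZMod 2, sg f (x + w) * chi l (x + w) * chi a x := by
      simp only [Finset.sum_mul]
      exact Finset.sum_comm
    unfold GW
    simp only [div_mul_eq_mul_div, ← Finset.sum_div]
    rw [e2, Finset.sum_congr rfl fun w _ => e1 w, ← Finset.mul_sum]
  unfold fc
  rw [key]
  rcases sum_chi_W W a with h | h
  · left; rw [h]; simp
  · right; rw [h]; field_simp

theorem kill_of_cosets (m : ℕ) (f : (Fin n → ZMod 2) → Bool)
    (W : Submodule (ZMod 2) (Fin n → ZMod 2)) (l : Fin n → ZMod 2)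
    (hf : Granular (m + 1) f) (hW : ∀ x, ConstAt f l W x ∨ BalAt f l W x)
    (hne : ∃ x, ConstAt f l W x) :
    2 ≤ (2 : ℝ) ^ (m + 1) * (Nat.card {x // ConstAt f l W x} : ℝ) / 2 ^ n ∧
    KillLE f (2 * (m + 1) *
      ⌈(2 : ℝ) ^ (m + 1) * (Nat.card {x // ConstAt f l W x} : ℝ) / 2 ^ n⌉₊) := by
  classical
  set G := GW f l W with hGdef
  set P : ℝ := (2 : ℝ) ^ (m + 1) * (Nat.card {x // ConstAt f l W x} : ℝ) / 2 ^ n with hP
  have h2m : (0 : ℝ) < 2 ^ m := by positivity
  have hval : ∀ x, G x = -1 ∨ G x = 0 ∨ G x = 1 := by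
    intro x
    rcases hW x with h | h
    · rw [hGdef, GW_const f l W x h]
      rcases sg_cases f x with e | e <;> rcases chi_cases l x with e' | e' <;> rw [e, e'] <;>
        norm_num
    · right; left; exact GW_bal f l W x h
  have hG1 : ∀ x, ConstAt f l W x → G x = sg f x * chi l x := fun x h => GW_const f l W x h
  have hG0 : ∀ x, G x ≠ 0 → ConstAt f l W x := by
    intro x hx
    rcases hW x with h | h
    · exact h
    · exact absurd (GW_bal f l W x h) hx
  have hGsq : ∀ x, G x ^ 2 = if ConstAt f l W x then (1 : ℝ) else 0 := by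
    intro x
    split_ifs with h
    · rw [hG1 x h, sq]
      have h1 := sg_sq f x
      have h2 := chi_sq l x
      linear_combination (chi l x * chi l x) * h1 + h2
    · have : G x = 0 := by
        by_contra hc
        exact h (hG0 x hc)
      rw [this]; norm_num
  have hsum : ∑ x, G x ^ 2 = (Nat.card {x // ConstAt f l W x} : ℝ) := by
    simp only [hGsq]
    rw [Finset.sum_boole, Nat.card_eq_fintype_card, Fintype.card_subtype]
  have hint : ∀ a, ∃ z : ℤ, (2 : ℝ) ^ m * fc G a = z := by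
    intro a
    rcases GW_fc f l W a with h | h
    · exact ⟨0, by rw [hGdef, h]; simp⟩
    · rw [hGdef, h]; exact int_sg f m hf _
  have habs : ∀ a, |fc G a| ≤ (2 : ℝ) ^ m * fc G a ^ 2 := by
    intro a
    obtain ⟨z, hz⟩ := hint a
    by_cases hz0 : z = 0
    · rw [hz0, Int.cast_zero] at hz
      have : fc G a = 0 := by
        rcases mul_eq_zero.mp hz with h | h
        · exact absurd h h2m.ne'
        · exact h
      rw [this]; simp
    · have h1 : (1 : ℝ) ≤ |(z : ℝ)| := by exact_mod_cast Int.one_le_abs hz0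
      rw [← hz, abs_mul, abs_of_pos h2m] at h1
      have h3 : |fc G a| * 1 ≤ |fc G a| * (2 ^ m * |fc G a|) :=
        mul_le_mul_of_nonneg_left h1 (abs_nonneg _)
      have h4 : |fc G a| * (2 ^ m * |fc G a|) = 2 ^ m * fc G a ^ 2 := by
        rw [← sq_abs (fc G a)]
        ring
      linarith
  have hl1 : 2 * ∑ a, |fc G a| ≤ P := by
    have : ∑ a, |fc G a| ≤ 2 ^ m * ((Nat.card {x // ConstAt f l W x} : ℝ) / 2 ^ n) := by
      calc ∑ a, |fc G a| ≤ ∑ a, (2 : ℝ) ^ m * fc G a ^ 2 := Finset.sum_le_sum fun a _ => habs a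
        _ = 2 ^ m * ∑ a, fc G a ^ 2 := by rw [Finset.mul_sum]
        _ = _ := by rw [parseval, hsum]
    rw [hP, pow_succ]
    calc 2 * ∑ a, |fc G a| ≤ 2 * (2 ^ m * ((Nat.card {x // ConstAt f l W x} : ℝ) / 2 ^ n)) := by
          linarith
      _ = _ := by ring
  obtain ⟨x₁, hx₁⟩ := hne
  have hGx₁ : |G x₁| = 1 := by
    rw [hG1 x₁ hx₁]
    rcases sg_cases f x₁ with e | e <;> rcases chi_cases l x₁ with e' | e' <;> rw [e, e'] <;>
      norm_num
  have h1 : 1 ≤ ∑ a, |fc G a| := by
    rw [← hGx₁, inv G x₁]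
    calc |∑ a, fc G a * chi a x₁| ≤ ∑ a, |fc G a * chi a x₁| := Finset.abs_sum_le_sum_abs _ _
      _ = ∑ a, |fc G a| := by
          refine Finset.sum_congr rfl fun a _ => ?_
          rw [abs_mul]
          rcases chi_cases a x₁ with e | e <;> rw [e] <;> norm_num
  have hP2 : 2 ≤ P := by linarith
  refine ⟨hP2, ?_⟩
  obtain ⟨L, x₀, a₀, s, hL, hs, hflat⟩ := force G (fc G) (inv G) hval
    ⟨x₁, fun h => by rw [h] at hGx₁; norm_num at hGx₁⟩ m hint ⌈P⌉₊
    (hl1.trans (Nat.le_ceil P))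
  have hN1 : 1 ≤ ⌈P⌉₊ := by
    rw [Nat.one_le_ceil_iff]; linarith
  apply kill_of_list f ((a₀ + l) :: L) x₀
  · have hF : ∀ x ∈ Fl L x₀, sg f x = s * chi (a₀ + l) x := by
      intro x hx
      have h2 := hflat x hx
      have hne : G x ≠ 0 := by
        rw [h2]
        rcases hs with rfl | rfl <;> rcases chi_cases a₀ x with e | e <;> rw [e] <;> norm_num
      have h3 := hG1 x (hG0 x hne)
      have h4 := chi_sq l x
      rw [chi_add_left]
      rw [h2] at h3
      linear_combination (-(chi l x)) * h3 - (sg f x) * h4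
    intro x hx
    have hx' : x ∈ Fl L x₀ ∧ chi (a₀ + l) x = chi (a₀ + l) x₀ := by
      rw [Fl_cons, mem_filter] at hx
      exact hx
    have e1 := hF x hx'.1
    have e2 := hF x₀ (self_mem L x₀)
    have e3 : sg f x = sg f x₀ := by rw [e1, e2, hx'.2]
    unfold sg at e3
    cases hfx : f x <;> cases hfx₀ : f x₀ <;> rw [hfx, hfx₀] at e3 <;> first | rfl | norm_num at e3
  · rw [List.length_cons]
    have : (2 * m - 1) * ⌈P⌉₊ + 1 ≤ 2 * (m + 1) * ⌈P⌉₊ := by
      calc (2 * m - 1) * ⌈P⌉₊ + 1 ≤ (2 * m) * ⌈P⌉₊ + ⌈P⌉₊ :=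
            Nat.add_le_add (Nat.mul_le_mul_right _ (by omega)) hN1
        _ ≤ 2 * (m + 1) * ⌈P⌉₊ := by nlinarith
    omega

end Pool.Agent.Work.MP_79d924_lc.SI
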